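import Pool.Agent.Run7.h35.TT.Fin

/-!
# Proportional subspaces with bounded type 2 constant need not exist (negative answer to Q1)

For every `lam > 0` and every `T` there is a norm on some `ℝ^n` whose cotype 4 constant is exactly 2
and all of whose subspaces of dimension at least `lam * n` have type 2 constant larger than `T`.
The norm is that of `ℓ₁^m(ℓ₄^b)` (with a fixed summand `ℓ_∞^16`, which makes the cotype 4 constant
equal to 2).

Outline: let `P` be the orthogonal projection onto the subspace `E` of `ℓ₁^m(ℓ₄^b)` (with respect to
the Euclidean norm) and let `x` be the sum of a random sparse family of columns of `P` with random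
signs. If `T₂(E) ≤ T` then the norm of `x` is not small, by the diagonal entries of `P`. The energy
`∑ P_{jl}²` is at most `n`, so that there is a scale `η` near which it is negligible; by a fourth
moment estimate the entries below this scale do not contribute to the norm of `x`, and the others lie
in few rows. So the norm of `x` is concentrated on few random rows, and independent copies of `x`
behave like the unit vector basis of `ℓ₁`, which contradicts type 2.
-/

set_option autoImplicit false

open Run7.h35.TT

namespace Pool.Agent.Results.MP_138624_an.NoTypeTwoSubspaces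

/-- For every `lam > 0` and every `T` there is a norm on some `ℝ^n` with cotype 4 constant exactly 2
such that every subspace of dimension at least `lam * n` has type 2 constant larger than `T`.
In particular there is no function `f` as in Q1. -/
theorem result :
    (∀ lam T : ℝ, 0 < lam → ∃ (n : ℕ) (p : Seminorm ℝ (Fin n → ℝ)),
      0 < n ∧ (∀ x, p x = 0 → x = 0) ∧ IsLeast {C | CqLe p 4 C} 2 ∧
      ∀ E : Submodule ℝ (Fin n → ℝ), lam * n ≤ Module.finrank ℝ E → ¬ T2Le p E T) ∧
    ¬ ∃ f : ℝ → ℝ → ℝ, ∀ (n : ℕ) (p : Seminorm ℝ (Fin n → ℝ)), (∀ x, p x = 0 → x = 0) →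
      ∀ q C : ℝ, 2 ≤ q → IsLeast {C | CqLe p q C} C →
        ∃ E : Submodule ℝ (Fin n → ℝ), (n : ℝ) / 2 ≤ Module.finrank ℝ E ∧ T2Le p E (f q C) := by
  refine ⟨fun lam T hl => exists_norm lam T hl, ?_⟩
  rintro ⟨f, hf⟩
  obtain ⟨n, p, _, hp, hC, hE⟩ := exists_norm (1 / 2) (f 4 2) (by norm_num)
  obtain ⟨E, hdim, hT⟩ := hf n p hp 4 2 (by norm_num) hC
  exact hE E (by linarith) hT

end Pool.Agent.Results.MP_138624_an.NoTypeTwoSubspaces
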